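import Mathlib
import Pool.Agent.H26.Homog
import Pool.Agent.H26.HomogBlk
import Pool.Agent.H26.Homog20

set_option autoImplicit false

namespace Pool.Agent.Results.MP_03d2dd_co.EvenH

open Pool.Agent.H26

def IsLatin {α : Type} (L : α → α → α) : Prop :=
  (∀ r, Function.Bijective (fun c => L r c)) ∧ (∀ c, Function.Bijective (fun r => L r c))

def Homogeneous {α : Type} (h : ℕ) (L : α → α → α) : Prop :=
  ∀ r c : α, Set.ncard {p : α × α | p.1 ≠ r ∧ p.2 ≠ c ∧ L r c = L p.1 p.2 ∧
    L r p.2 = L p.1 c} = h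

theorem lift {β : Type} [Fintype β] (n k h : ℕ) (hk : Odd k) (hn : n = Fintype.card β * k)
    (T : β → β → β) (hL : IsLatin T) (hH : Homogeneous h T) :
    ∃ L : Fin n → Fin n → Fin n, IsLatin L ∧ Homogeneous h L := by
  haveI : NeZero k := ⟨by rintro rfl; exact absurd hk (by decide)⟩
  have e : Fin n ≃ β × ZMod k := Fintype.equivOfCardEq (by simp [hn])
  let M : β × ZMod k → β × ZMod k → β × ZMod k := fun r c => (T r.1 c.1, r.2 + c.2)
  refine ⟨fun r c => e.symm (M (e r) (e c)), ⟨fun r => ?_, fun c => ?_⟩, fun r c => ?_⟩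
  · exact e.symm.bijective.comp ((Homog.lift_row T k hL.1 (e r)).comp e.bijective)
  · exact e.symm.bijective.comp ((Homog.lift_col T k hL.2 (e c)).comp e.bijective)
  · rw [← hH (e r).1 (e c).1, ← Homog.lift_cnt T k hk (e r) (e c),
      ← Set.ncard_image_of_injective _ (e.prodCongr e).injective]
    congr 1
    ext ⟨a, b⟩
    obtain ⟨a, rfl⟩ := e.surjective a
    obtain ⟨b, rfl⟩ := e.surjective b
    rw [show ((e a, e b) : (β × ZMod k) × (β × ZMod k)) = (e.prodCongr e) (a, b) from rfl,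
      (e.prodCongr e).injective.mem_set_image]
    simp only [Set.mem_setOf_eq, Equiv.prodCongr_apply, Prod.map, ne_eq,
      e.injective.eq_iff, e.symm.injective.eq_iff, M]

open Pool.Agent.H26.HomogBlk in
theorem result :
    (∀ h k : ℕ, Even h → 4 ≤ h → Odd k →
      ∃ L : Fin (4 * (h - 1) * k) → Fin (4 * (h - 1) * k) → Fin (4 * (h - 1) * k),
        IsLatin L ∧ Homogeneous h L) ∧
    (∀ k : ℕ, Odd k → ∃ L : Fin (20 * k) → Fin (20 * k) → Fin (20 * k),
      IsLatin L ∧ Homogeneous 2 L) := by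
  constructor
  · intro h k he h4 hk
    obtain ⟨m, rfl⟩ : ∃ m, h = m + 1 := ⟨h - 1, by omega⟩
    have hm : Odd m := by
      obtain ⟨t, ht⟩ := he
      exact ⟨t - 1, by omega⟩
    haveI : NeZero m := ⟨by omega⟩
    refine lift (β := Fin 4 × ZMod m) _ k _ hk (by simp) (blk m Q1 e1 c1)
      (HomogBlk.lat _ _ _ _ (by decide +kernel) (by decide +kernel) (by decide +kernel)) ?_
    exact cnt _ hm (by omega) Q1 e1 c1 J1 (by decide +kernel) (by decide +kernel)
      (by decide +kernel) (by decide +kernel) (by decide +kernel) (by decide +kernel)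
      (by decide +kernel)
  · intro k hk
    exact lift (β := Fin 20) _ k _ hk (by simp) (Homog20.tb Homog20.NL) Homog20.hL.1 Homog20.hL.2

end Pool.Agent.Results.MP_03d2dd_co.EvenH
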